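import Pool.Agent.H13.EC.Defs

/-!
Module AS: the Artin-Schreier classes of a fixed field.
-/

set_option autoImplicit false

open Polynomial

namespace Pool.Agent.H54.EC

open Pool.Agent.H13.EC

universe u

theorem as_root (L : Type u) [Field L] [CharP L 2] [IsSepClosed L] (x : L) :
    ∃ r : L, r ^ 2 + r = x := by
  have h2 : (2 : L) = 0 := CharTwo.two_eq_zero
  have hnd : (X ^ 2 + X - C x : L[X]).natDegree = 2 := by compute_degree!
  have hd : (X ^ 2 + X - C x : L[X]).degree ≠ 0 := by
    intro h
    have := natDegree_eq_of_degree_eq_some (n := 0) (by simpa using h)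
    omega
  have hs : (X ^ 2 + X - C x : L[X]).Separable := by
    have : derivative (X ^ 2 + X - C x : L[X]) = 1 := by
      simp only [derivative_sub, derivative_add, derivative_X_pow, derivative_X, derivative_C]
      have : (C (2 : L)) = 0 := by rw [h2, C_0]
      simp [this]
    unfold Separable
    rw [this]
    exact isCoprime_one_right
  obtain ⟨r, hr⟩ := IsSepClosed.exists_root _ hd hs
  refine ⟨r, ?_⟩
  simp only [IsRoot.def, eval_sub, eval_add, eval_pow, eval_X, eval_C] at hr
  linear_combination hr

theorem as_01 {L : Type u} [Field L] [CharP L 2] {a : L} (h : a ^ 2 + a = 0) : a = 0 ∨ a = 1 := by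
  have h2 : (2 : L) = 0 := CharTwo.two_eq_zero
  have : a * (a - 1) = 0 := by linear_combination h - a * h2
  rcases mul_eq_zero.1 this with h | h
  · exact Or.inl h
  · exact Or.inr (by linear_combination h)

theorem as_ : T_AS.{u} := by
  intro F _ _ e σ
  have : CharP (SeparableClosure F) 2 :=
    charP_of_injective_algebraMap (algebraMap F (SeparableClosure F)).injective 2
  have h20 : (2 : SeparableClosure F) = 0 := CharTwo.two_eq_zero
  set K := IntermediateField.fixedField (Subgroup.closure (Set.range σ)) with hK
  have hfix : ∀ (x : K) (i : Fin e), σ i (x : SeparableClosure F) = x := by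
    intro x i
    exact (IntermediateField.mem_fixedField_iff _ _).1 x.2 (σ i)
      (Subgroup.subset_closure ⟨i, rfl⟩)
  choose r hr using fun x : K => as_root (SeparableClosure F) (x : SeparableClosure F)
  set ι : ZMod 2 →+* SeparableClosure F := ZMod.castHom (dvd_refl 2) (SeparableClosure F) with hι
  have hιi : Function.Injective ι := ι.injective
  classical
  -- the cocycle
  have hδ : ∀ (x : K) (i : Fin e), σ i (r x) - r x = ι (if σ i (r x) = r x then 0 else 1) := by
    intro x i
    split_ifs with h
    · rw [h, sub_self, map_zero]
    · rw [map_one]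
      have h1 : (σ i (r x) - r x) ^ 2 + (σ i (r x) - r x) = 0 := by
        have e1 : (σ i (r x)) ^ 2 + σ i (r x) = x := by
          rw [← map_pow, ← map_add, hr, hfix]
        linear_combination e1 - hr x - (σ i (r x) * r x - (r x) ^ 2) * h20
      rcases as_01 h1 with h2 | h2
      · exact absurd (sub_eq_zero.1 h2) h
      · exact h2
  have hadd : ∀ (x y : K) (i : Fin e),
      (if σ i (r (x + y)) = r (x + y) then (0 : ZMod 2) else 1) =
        (if σ i (r x) = r x then 0 else 1) + (if σ i (r y) = r y then 0 else 1) := by
    intro x y i
    apply hιi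
    rw [map_add, ← hδ, ← hδ, ← hδ]
    have h1 : (r (x + y) - (r x + r y)) ^ 2 + (r (x + y) - (r x + r y)) = 0 := by
      have e1 := hr (x + y)
      have e2 := hr x
      have e3 := hr y
      have e4 : ((x + y : K) : SeparableClosure F) = x + y := rfl
      linear_combination e1 - e2 - e3 + e4 - (r (x + y) * (r x + r y) - (r x) ^ 2 - (r y) ^ 2
        - r x * r y) * h20
    have h3 : σ i (r (x + y) - (r x + r y)) = r (x + y) - (r x + r y) := by
      rcases as_01 h1 with h | h
      · rw [h, map_zero]
      · rw [h, map_one]
    rw [map_sub, map_add] at h3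
    linear_combination h3
  refine ⟨AddMonoidHom.mk' (fun x => ULift.up fun i => if σ i (r x) = r x then 0 else 1)
    (fun x y => by
      apply ULift.ext
      funext i
      exact hadd x y i), ?_⟩
  intro x
  constructor
  · intro h
    have h1 : ∀ i, σ i (r x) = r x := by
      intro i
      have h2 := congrFun (congrArg ULift.down h) i
      by_contra h3
      have h4 : (if σ i (r x) = r x then (0 : ZMod 2) else 1) = 0 := h2
      rw [if_neg h3] at h4
      exact absurd h4 (by decide)
    have h5 : r x ∈ K := by
      rw [hK, IntermediateField.mem_fixedField_iff]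
      intro f hf
      induction hf using Subgroup.closure_induction with
      | mem f hf =>
        obtain ⟨i, rfl⟩ := hf
        exact h1 i
      | one => rfl
      | mul f g _ _ hf hg =>
        change f (g (r x)) = r x
        rw [hg, hf]
      | inv f _ hf =>
        change f.symm (r x) = r x
        rw [AlgEquiv.symm_apply_eq]
        exact hf.symm
    refine ⟨⟨r x, h5⟩, ?_⟩
    apply Subtype.ext
    exact hr x
  · rintro ⟨k, hk⟩
    have h1 : (r x - k) ^ 2 + (r x - k) = 0 := by
      have e1 := hr x
      have e2 : (k : SeparableClosure F) ^ 2 + k = x := congrArg Subtype.val hk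
      linear_combination e1 - e2 - (r x * k - (k : SeparableClosure F) ^ 2) * h20
    apply ULift.ext
    funext i
    change (if σ i (r x) = r x then (0 : ZMod 2) else 1) = 0
    rw [if_pos]
    have h3 : σ i (r x - k) = r x - k := by
      rcases as_01 h1 with h | h
      · rw [h, map_zero]
      · rw [h, map_one]
    rw [map_sub, hfix] at h3
    linear_combination h3

end Pool.Agent.H54.EC
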