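import Pool.Agent.H13.EC.Defs

/-!
Module COL: the ordinary and the supersingular case together.
-/

set_option autoImplicit false

namespace Pool.Agent.H54.EC

open Pool.Agent.H13.EC

universe u

theorem col (h1 : T_ORD.{u}) (h2 : T_SS.{u}) : T_COL.{u} := by
  intro F V _ _ _ _ ψ Γ₀ _ v a1 a2 a3 a4 a6 B g hψ hv hne
  have h20 : (2 : F) = 0 := CharTwo.two_eq_zero
  by_cases ha : a1 = 0
  · subst ha
    have h3 : a3 ≠ 0 := by
      rcases hne with h | h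
      · exact absurd rfl h
      · exact h
    obtain ⟨x, hx, hx2⟩ := h2 F V ψ Γ₀ v (1 / a3) ((1 / a3) ^ 2 * a2) ((1 / a3) ^ 2 * a4) B
      (g - (1 / a3) ^ 2 * a6) hψ hv (one_div_ne_zero h3)
    refine ⟨x, hx, by simpa using h3, ?_⟩
    have e : (x ^ 3 + a2 * x ^ 2 + a4 * x + a6) / (0 * x + a3) ^ 2 =
        ((1 / a3) ^ 2 * x ^ 3 + (1 / a3) ^ 2 * a2 * x ^ 2 + (1 / a3) ^ 2 * a4 * x) +
          (1 / a3) ^ 2 * a6 := by
      rw [zero_mul, zero_add]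
      field_simp
    rw [e, map_add, hx2, map_sub]
    abel
  · -- a bound which dominates
    obtain ⟨x1, hx1⟩ := hv (a1 * B)
    obtain ⟨x2, hx2⟩ := hv a3
    obtain ⟨B', hB1, hB2⟩ : ∃ B', v (a1 * B) < v B' ∧ v a3 < v B' := by
      rcases le_total (v x1) (v x2) with h | h
      · exact ⟨x2, lt_of_lt_of_le hx1 h, hx2⟩
      · exact ⟨x1, hx1, lt_of_lt_of_le hx2 h⟩
    obtain ⟨z, hz, hz2⟩ := h1 F V ψ Γ₀ v (1 / a1 ^ 3) (a3 ^ 2 / a1 ^ 3 + a4 / a1)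
      (a3 ^ 3 / a1 ^ 3 + a2 * a3 ^ 2 / a1 ^ 2 + a4 * a3 / a1 + a6) B'
      (g - (a3 / a1 ^ 3 + a2 / a1 ^ 2)) hψ hv (one_div_ne_zero (pow_ne_zero 3 ha))
    have hz3 : v a3 < v z := hB2.trans hz
    have hzB : v (a1 * B) < v z := hB1.trans hz
    have hz0 : z ≠ 0 := by
      rintro rfl
      rw [map_zero] at hz3
      exact absurd hz3 not_lt_zero
    have hva : 0 < v a1 := by
      rw [zero_lt_iff]
      exact (Valuation.ne_zero_iff v).2 ha
    have hd : a1 * ((z - a3) / a1) + a3 = z := by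
      field_simp
      ring
    refine ⟨(z - a3) / a1, ?_, ?_, ?_⟩
    · rw [map_div₀, Valuation.map_sub_eq_of_lt_left v hz3, lt_div_iff₀' hva, ← map_mul]
      exact hzB
    · rw [hd]
      exact hz0
    · rw [hd]
      have e : (((z - a3) / a1) ^ 3 + a2 * ((z - a3) / a1) ^ 2 + a4 * ((z - a3) / a1) + a6) /
          z ^ 2 = (1 / a1 ^ 3 * z + (a3 ^ 2 / a1 ^ 3 + a4 / a1) / z +
            (a3 ^ 3 / a1 ^ 3 + a2 * a3 ^ 2 / a1 ^ 2 + a4 * a3 / a1 + a6) / z ^ 2) +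
            (a3 / a1 ^ 3 + a2 / a1 ^ 2) := by
        field_simp
        linear_combination (-2 * z ^ 2 * a3 + z * a3 ^ 2 - a3 ^ 3 - a1 * a2 * z * a3
          - a1 ^ 2 * a3 * a4) * h20
      rw [e, map_add, hz2, map_sub]
      abel

end Pool.Agent.H54.EC
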